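import Mathlib
import Pool.Agent.H205R2.NR.SqFree

/-! Minimax joint spectral radii: integer `5 × 5` matrices and square-free words. -/

namespace Pool.Agent.Q178.MM

open Matrix Filter Topology

/-- `A_{n-1} B_{n-1} ⋯ A_0 B_0` -/
def altProd {N : ℕ} (n : ℕ) (A B : Fin n → Matrix (Fin N) (Fin N) ℝ) :
    Matrix (Fin N) (Fin N) ℝ :=
  (List.ofFn fun i => A i * B i).reverse.prod

theorem altProd_zero {N : ℕ} (A B : Fin 0 → Matrix (Fin N) (Fin N) ℝ) : altProd 0 A B = 1 := by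
  simp [altProd]

theorem altProd_succ {N n : ℕ} (A B : Fin (n + 1) → Matrix (Fin N) (Fin N) ℝ) :
    altProd (n + 1) A B = A (Fin.last n) * B (Fin.last n) *
      altProd n (fun i => A i.castSucc) (fun i => B i.castSucc) := by
  unfold altProd
  rw [List.ofFn_succ']
  simp [List.concat_eq_append]

theorem altProd_add {N m n : ℕ} (A B : Fin (m + n) → Matrix (Fin N) (Fin N) ℝ) :
    altProd (m + n) A B = altProd n (fun i => A (Fin.natAdd m i)) (fun i => B (Fin.natAdd m i)) *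
      altProd m (fun i => A (Fin.castAdd n i)) (fun i => B (Fin.castAdd n i)) := by
  unfold altProd
  rw [List.ofFn_add]
  simp
  rfl

/-- letter matrices -/
def LM (a : ℕ) : Matrix (Fin 5) (Fin 5) ℝ :=
  !![1, 0, 0, 0, 0;
     (a : ℝ), 16, 0, 0, 0;
     0, 0, 1, 0, 0;
     0, 0, 0, 1, 0;
     0, 0, (a : ℝ), 0, 16]

/-- the marker matrix -/
def CM : Matrix (Fin 5) (Fin 5) ℝ :=
  !![0, 0, 0, 1, -1;
     0, 0, 0, 0, 0;
     1, 0, 0, 0, 0;
     0, 1, 0, 0, 0;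
     0, 0, 0, 0, 0]

def LW (K V : ℝ) : Matrix (Fin 5) (Fin 5) ℝ :=
  !![1, 0, 0, 0, 0;
     V, K, 0, 0, 0;
     0, 0, 1, 0, 0;
     0, 0, 0, 1, 0;
     0, 0, V, 0, K]

theorem LM_mulVec (a : ℕ) (x0 x1 x2 x3 x4 : ℝ) :
    LM a *ᵥ ![x0, x1, x2, x3, x4] = ![x0, a * x0 + 16 * x1, x2, x3, a * x2 + 16 * x4] := by
  ext i
  fin_cases i <;> simp [LM, Matrix.mulVec, dotProduct, Fin.sum_univ_succ]

theorem CM_mulVec (x0 x1 x2 x3 x4 : ℝ) :
    CM *ᵥ ![x0, x1, x2, x3, x4] = ![x3 - x4, 0, x0, x1, 0] := by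
  ext i
  fin_cases i <;> simp [CM, Matrix.mulVec, dotProduct, Fin.sum_univ_succ, sub_eq_add_neg]

theorem LM_mul_LW (a : ℕ) (K V : ℝ) : LM a * LW K V = LW (16 * K) (a + 16 * V) := by
  ext i j
  fin_cases i <;> fin_cases j <;> simp [LM, LW, Matrix.mul_apply, Fin.sum_univ_succ]

theorem LM_eq_LW (a : ℕ) : LM a = LW 16 a := rfl

theorem LW_CM_pow (K V : ℝ) : (LW K V * CM) ^ 4 = 0 := by
  have h1 : LW K V * CM = !![0, 0, 0, 1, -1;
     0, 0, 0, V, -V;
     1, 0, 0, 0, 0;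
     0, 1, 0, 0, 0;
     V, 0, 0, 0, 0] := by
    ext i j
    fin_cases i <;> fin_cases j <;> simp [CM, LW, Matrix.mul_apply, Fin.sum_univ_succ]
  have h2 : (LW K V * CM) * (LW K V * CM) = !![-V, 1, 0, 0, 0;
     -(V * V), V, 0, 0, 0;
     0, 0, 0, 1, -1;
     0, 0, 0, V, -V;
     0, 0, 0, V, -V] := by
    rw [h1]
    ext i j
    fin_cases i <;> fin_cases j <;> simp [Matrix.mul_apply, Fin.sum_univ_succ]
  have h4 : (LW K V * CM) ^ 4 = ((LW K V * CM) * (LW K V * CM)) *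
      ((LW K V * CM) * (LW K V * CM)) := by
    rw [← pow_two, ← pow_two, ← pow_mul]
  rw [h4, h2]
  ext i j
  fin_cases i <;> fin_cases j <;> simp [Matrix.mul_apply, Fin.sum_univ_succ] <;> ring

/-- value of the block of length `e` starting at `i`, in bijective base 16 -/
def V (u : ℕ → Fin 16) (i : ℕ) : ℕ → ℕ
  | 0 => 0
  | e + 1 => ((u (i + e) : ℕ) + 1) + 16 * V u i e

theorem V_inj (u : ℕ → Fin 16) (i j : ℕ) : ∀ e f : ℕ, V u i e = V u j f →
    e = f ∧ ∀ t < e, u (i + t) = u (j + t)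
  | 0, 0, _ => ⟨rfl, fun t ht => absurd ht (by omega)⟩
  | 0, f + 1, h => by simp only [V] at h; omega
  | e + 1, 0, h => by simp only [V] at h; omega
  | e + 1, f + 1, h => by
    simp only [V] at h
    have h1 := (u (i + e)).isLt
    have h2 := (u (j + f)).isLt
    have h3 : (u (i + e) : ℕ) = u (j + f) := by omega
    have h4 : V u i e = V u j f := by omega
    obtain ⟨hef, ht⟩ := V_inj u i j e f h4
    subst hef
    refine ⟨rfl, fun t htt => ?_⟩
    rcases Nat.lt_succ_iff_lt_or_eq.1 htt with h5 | h5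
    · exact ht t h5
    · subst h5
      exact Fin.ext h3

/-- the invariant -/
def Inv (u : ℕ → Fin 16) (k : ℕ) (v : Fin 5 → ℝ) : Prop :=
  (∃ (s : ℤ) (i e : ℕ), s ≠ 0 ∧ i + e = k ∧
      v = ![(s : ℝ), (s : ℝ) * (V u i e : ℝ), 0, 0, 0]) ∨
  (∃ (s : ℤ) (i e j f : ℕ), s ≠ 0 ∧ i + e = j ∧ j + f = k ∧ 0 < f ∧
      v = ![0, 0, (s : ℝ), (s : ℝ) * (V u i e : ℝ), (s : ℝ) * (V u j f : ℝ)])

def SqF (u : ℕ → Fin 16) (R : ℕ) : Prop :=
  ∀ i e, 0 < e → i + 2 * e ≤ R → ∃ j, j < e ∧ u (i + j) ≠ u (i + e + j)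

theorem inv_step_one (u : ℕ → Fin 16) (k : ℕ) (v : Fin 5 → ℝ) (h : Inv u k v) :
    Inv u (k + 1) (LM ((u k : ℕ) + 1) *ᵥ v) := by
  rcases h with ⟨s, i, e, hs, hk, rfl⟩ | ⟨s, i, e, j, f, hs, hj, hk, hf, rfl⟩
  · left
    refine ⟨s, i, e + 1, hs, by omega, ?_⟩
    rw [LM_mulVec]
    simp only [V, hk]
    push_cast
    congr 1
    ext t
    fin_cases t <;> simp
    ring
  · right
    refine ⟨s, i, e, j, f + 1, hs, hj, by omega, by omega, ?_⟩
    rw [LM_mulVec]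
    simp only [V, hk]
    push_cast
    ext t
    fin_cases t <;> simp
    ring

theorem inv_step_mark (u : ℕ → Fin 16) (R k : ℕ) (hu : SqF u R) (hkR : k ≤ R) (v : Fin 5 → ℝ)
    (h : Inv u k v) : Inv u (k + 1) (LM ((u k : ℕ) + 1) *ᵥ (CM *ᵥ v)) := by
  rcases h with ⟨s, i, e, hs, hk, rfl⟩ | ⟨s, i, e, j, f, hs, hj, hk, hf, rfl⟩
  · right
    refine ⟨s, i, e, k, 1, hs, hk, rfl, by omega, ?_⟩
    rw [CM_mulVec, LM_mulVec]
    simp only [V]
    push_cast
    ext t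
    fin_cases t <;> simp
    ring
  · left
    have hne : V u i e ≠ V u j f := by
      intro hV
      obtain ⟨hef, ht⟩ := V_inj u i j e f hV
      subst hef
      obtain ⟨t, ht1, ht2⟩ := hu i e hf (by omega)
      rw [hj] at ht2
      exact ht2 (ht t ht1)
    refine ⟨s * ((V u i e : ℤ) - (V u j f : ℤ)), k, 1, ?_, rfl, ?_⟩
    · apply mul_ne_zero hs
      rw [sub_ne_zero]
      exact_mod_cast hne
    · rw [CM_mulVec, LM_mulVec]
      simp only [V]
      push_cast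
      ext t
      fin_cases t <;> simp
      · ring
      · ring

def v0 : Fin 5 → ℝ := ![1, 0, 0, 0, 0]

theorem inv_altProd (u : ℕ → Fin 16) (R : ℕ) (hu : SqF u R) : ∀ n : ℕ, n ≤ R →
    ∀ (A B : Fin n → Matrix (Fin 5) (Fin 5) ℝ), (∀ i, A i = LM ((u i : ℕ) + 1)) →
      (∀ i, B i = 1 ∨ B i = CM) → Inv u n (altProd n A B *ᵥ v0)
  | 0, _, A, B, _, _ => by
    left
    refine ⟨1, 0, 0, one_ne_zero, rfl, ?_⟩
    rw [altProd_zero, Matrix.one_mulVec]
    simp [v0, V]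
  | n + 1, hn, A, B, hA, hB => by
    have ih := inv_altProd u R hu n (by omega) (fun i => A i.castSucc) (fun i => B i.castSucc)
      (fun i => by simpa using hA i.castSucc) (fun i => hB i.castSucc)
    rw [altProd_succ, ← Matrix.mulVec_mulVec, ← Matrix.mulVec_mulVec, hA]
    rw [Fin.val_last]
    rcases hB (Fin.last n) with h | h
    · rw [h, Matrix.one_mulVec]
      exact inv_step_one u n _ ih
    · rw [h]
      exact inv_step_mark u R n hu (by omega) _ ih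

theorem one_le_abs_int (s : ℤ) (hs : s ≠ 0) : (1 : ℝ) ≤ |(s : ℝ)| := by
  have := Int.one_le_abs hs
  exact_mod_cast this

theorem inv_norm (u : ℕ → Fin 16) (k : ℕ) (v : Fin 5 → ℝ) (h : Inv u k v) : 1 ≤ ‖v‖ := by
  rcases h with ⟨s, i, e, hs, hk, rfl⟩ | ⟨s, i, e, j, f, hs, hj, hk, hf, rfl⟩
  · refine (one_le_abs_int s hs).trans ?_
    have := norm_le_pi_norm (![(s : ℝ), (s : ℝ) * (V u i e : ℝ), 0, 0, 0] : Fin 5 → ℝ) 0
    simpa using this
  · refine (one_le_abs_int s hs).trans ?_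
    have := norm_le_pi_norm
      (![0, 0, (s : ℝ), (s : ℝ) * (V u i e : ℝ), (s : ℝ) * (V u j f : ℝ)] : Fin 5 → ℝ) 2
    simpa using this

/-- `B = (C, 1, …, 1)`: the product is `W C` -/
theorem altProd_mark (a : ℕ → ℕ) : ∀ n : ℕ, ∀ (A B : Fin (n + 1) → Matrix (Fin 5) (Fin 5) ℝ),
    (∀ i, A i = LM (a i)) → (∀ i, B i = if (i : ℕ) = 0 then CM else 1) →
      ∃ K W : ℝ, altProd (n + 1) A B = LW K W * CM
  | 0, A, B, hA, hB => by
    refine ⟨16, a 0, ?_⟩
    rw [altProd_succ, altProd_zero, mul_one, hA, hB, LM_eq_LW]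
    simp
  | n + 1, A, B, hA, hB => by
    obtain ⟨K, W, h⟩ := altProd_mark a n (fun i => A i.castSucc) (fun i => B i.castSucc)
      (fun i => by simpa using hA i.castSucc) (fun i => by simpa using hB i.castSucc)
    refine ⟨16 * K, a (n + 1) + 16 * W, ?_⟩
    rw [altProd_succ, h, hA, hB, Fin.val_last, if_neg (by omega), mul_one, ← mul_assoc,
      LM_mul_LW]

end Pool.Agent.Q178.MM
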