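import Mathlib
import Pool.Agent.Q178.MM.Basic

/-! Minimax sequences: Fekete, norms. -/

namespace Pool.Agent.Q178.MM

open Matrix Filter Topology

/-- `max` over `A`-words of `min` over `B`-words of `φ` -/
noncomputable def muSeq {N : ℕ} (φ : Matrix (Fin N) (Fin N) ℝ → ℝ)
    (𝒜 ℬ : Finset (Matrix (Fin N) (Fin N) ℝ)) (n : ℕ) : ℝ :=
  ⨆ A : Fin n → 𝒜, ⨅ B : Fin n → ℬ, φ (altProd n (fun i => A i) (fun i => B i))

/-- `min` over `B`-words of `max` over `A`-words of `φ` -/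
noncomputable def etaSeq {N : ℕ} (φ : Matrix (Fin N) (Fin N) ℝ → ℝ)
    (𝒜 ℬ : Finset (Matrix (Fin N) (Fin N) ℝ)) (n : ℕ) : ℝ :=
  ⨅ B : Fin n → ℬ, ⨆ A : Fin n → 𝒜, φ (altProd n (fun i => A i) (fun i => B i))

/-- `ν` is a norm -/
structure IsNorm {N : ℕ} (ν : Matrix (Fin N) (Fin N) ℝ → ℝ) : Prop where
  add : ∀ X Y, ν (X + Y) ≤ ν X + ν Y
  smul : ∀ (c : ℝ) X, ν (c • X) = |c| * ν X
  eq_zero : ∀ X, ν X = 0 → X = 0

attribute [local instance] Matrix.linftyOpNormedRing Matrix.linftyOpNormedAlgebra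

variable {N : ℕ} {𝒜 ℬ : Finset (Matrix (Fin N) (Fin N) ℝ)}

theorem IsNorm.zero {ν : Matrix (Fin N) (Fin N) ℝ → ℝ} (h : IsNorm ν) : ν 0 = 0 := by
  have := h.smul 0 0
  simpa using this

theorem IsNorm.neg {ν : Matrix (Fin N) (Fin N) ℝ → ℝ} (h : IsNorm ν) (X) : ν (-X) = ν X := by
  have := h.smul (-1) X
  simpa using this

theorem IsNorm.nonneg {ν : Matrix (Fin N) (Fin N) ℝ → ℝ} (h : IsNorm ν) (X) : 0 ≤ ν X := by
  have := h.add X (-X)
  rw [add_neg_cancel, h.zero, h.neg] at this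
  linarith

theorem IsNorm.sum {ν : Matrix (Fin N) (Fin N) ℝ → ℝ} (h : IsNorm ν) {ι : Type} (s : Finset ι)
    (f : ι → Matrix (Fin N) (Fin N) ℝ) : ν (∑ i ∈ s, f i) ≤ ∑ i ∈ s, ν (f i) := by
  classical
  induction s using Finset.induction_on with
  | empty => simp [h.zero]
  | insert a s ha ih =>
    rw [Finset.sum_insert ha, Finset.sum_insert ha]
    exact (h.add _ _).trans (by linarith)

theorem entry_le (X : Matrix (Fin N) (Fin N) ℝ) (i j : Fin N) : |X i j| ≤ ‖X‖ := by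
  have h1 : X i j = (X *ᵥ Pi.single j 1) i := by simp
  rw [h1, ← Real.norm_eq_abs]
  refine (norm_le_pi_norm _ i).trans ((Matrix.linfty_opNorm_mulVec _ _).trans ?_)
  have : ‖(Pi.single j (1 : ℝ) : Fin N → ℝ)‖ ≤ 1 := by
    rw [pi_norm_le_iff_of_nonneg zero_le_one]
    intro k
    by_cases hk : k = j
    · subst hk; simp
    · simp [hk]
  exact mul_le_of_le_one_right (norm_nonneg _) this

theorem IsNorm.upper {ν : Matrix (Fin N) (Fin N) ℝ → ℝ} (h : IsNorm ν) :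
    ∃ C : ℝ, 0 < C ∧ ∀ X, ν X ≤ C * ‖X‖ := by
  refine ⟨1 + ∑ i : Fin N, ∑ j : Fin N, ν (Matrix.single i j 1), ?_, fun X => ?_⟩
  · have : 0 ≤ ∑ i : Fin N, ∑ j : Fin N, ν (Matrix.single i j 1) :=
      Finset.sum_nonneg fun i _ => Finset.sum_nonneg fun j _ => h.nonneg _
    linarith
  · have h1 : ν X ≤ ∑ i : Fin N, ∑ j : Fin N, ν (Matrix.single i j (X i j)) := by
      conv_lhs => rw [Matrix.matrix_eq_sum_single X]
      exact (h.sum _ _).trans (Finset.sum_le_sum fun i _ => h.sum _ _)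
    have h2 : ∀ i j, ν (Matrix.single i j (X i j)) ≤ ‖X‖ * ν (Matrix.single i j 1) := by
      intro i j
      have : Matrix.single i j (X i j) = (X i j) • Matrix.single i j (1 : ℝ) := by
        simp [Matrix.smul_single]
      rw [this, h.smul]
      exact mul_le_mul_of_nonneg_right (entry_le X i j) (h.nonneg _)
    have h3 : ∑ i : Fin N, ∑ j : Fin N, ν (Matrix.single i j (X i j)) ≤
        ‖X‖ * ∑ i : Fin N, ∑ j : Fin N, ν (Matrix.single i j 1) := by
      rw [Finset.mul_sum]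
      refine Finset.sum_le_sum fun i _ => ?_
      rw [Finset.mul_sum]
      exact Finset.sum_le_sum fun j _ => h2 i j
    nlinarith [norm_nonneg X]

theorem IsNorm.lower [NeZero N] {ν : Matrix (Fin N) (Fin N) ℝ → ℝ} (h : IsNorm ν) :
    ∃ c : ℝ, 0 < c ∧ ∀ X, c * ‖X‖ ≤ ν X := by
  obtain ⟨C, hC, hup⟩ := h.upper
  have hcont : Continuous ν := by
    have hl : LipschitzWith (Real.toNNReal C) ν := by
      refine LipschitzWith.of_dist_le_mul fun X Y => ?_
      rw [Real.coe_toNNReal _ hC.le, Real.dist_eq, dist_eq_norm, abs_le]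
      have h1 := h.add (X - Y) Y
      have h2 := h.add (Y - X) X
      rw [sub_add_cancel] at h1 h2
      have h3 := hup (X - Y)
      have h4 : ν (Y - X) = ν (X - Y) := by rw [← h.neg, neg_sub]
      constructor <;> linarith
    exact hl.continuous
  have hfd : FiniteDimensional ℝ (Matrix (Fin N) (Fin N) ℝ) := inferInstance
  haveI : ProperSpace (Matrix (Fin N) (Fin N) ℝ) := FiniteDimensional.proper ℝ _
  have hcomp : IsCompact (Metric.sphere (0 : Matrix (Fin N) (Fin N) ℝ) 1) := isCompact_sphere _ _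
  have hne : (Metric.sphere (0 : Matrix (Fin N) (Fin N) ℝ) 1).Nonempty := by
    refine ⟨‖(1 : Matrix (Fin N) (Fin N) ℝ)‖⁻¹ • 1, ?_⟩
    rw [mem_sphere_zero_iff_norm, norm_smul, norm_inv, norm_norm, inv_mul_cancel₀]
    rw [norm_ne_zero_iff]
    exact one_ne_zero
  obtain ⟨X₀, hX₀, hmin⟩ := hcomp.exists_isMinOn hne hcont.continuousOn
  have hX₀' : ‖X₀‖ = 1 := by simpa using hX₀
  refine ⟨ν X₀, ?_, fun X => ?_⟩
  · rcases (h.nonneg X₀).lt_or_eq with h1 | h1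
    · exact h1
    · have := h.eq_zero X₀ h1.symm
      rw [this, norm_zero] at hX₀'
      norm_num at hX₀'
  · by_cases hX : ‖X‖ = 0
    · rw [hX, mul_zero]; exact h.nonneg _
    · have h1 : ‖X‖⁻¹ • X ∈ Metric.sphere (0 : Matrix (Fin N) (Fin N) ℝ) 1 := by
        rw [mem_sphere_zero_iff_norm, norm_smul, norm_inv, norm_norm, inv_mul_cancel₀ hX]
      have h2 := hmin h1
      simp only [Set.mem_ofPred_eq] at h2
      rw [h.smul, abs_inv, abs_norm] at h2
      have h3 : 0 < ‖X‖ := lt_of_le_of_ne (norm_nonneg _) (Ne.symm hX)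
      rw [inv_mul_eq_div, le_div_iff₀ h3] at h2
      exact h2

/-! monotonicity in `φ` -/

theorem muSeq_mono (hA : 𝒜.Nonempty) (hB : ℬ.Nonempty) {φ ψ : Matrix (Fin N) (Fin N) ℝ → ℝ}
    (h : ∀ X, φ X ≤ ψ X) (n : ℕ) : muSeq φ 𝒜 ℬ n ≤ muSeq ψ 𝒜 ℬ n := by
  haveI := hA.to_subtype
  haveI := hB.to_subtype
  refine ciSup_mono (Set.finite_range _).bddAbove fun A => ?_
  exact ciInf_mono (Set.finite_range _).bddBelow fun B => h _

theorem etaSeq_mono (hA : 𝒜.Nonempty) (hB : ℬ.Nonempty) {φ ψ : Matrix (Fin N) (Fin N) ℝ → ℝ}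
    (h : ∀ X, φ X ≤ ψ X) (n : ℕ) : etaSeq φ 𝒜 ℬ n ≤ etaSeq ψ 𝒜 ℬ n := by
  haveI := hA.to_subtype
  haveI := hB.to_subtype
  refine ciInf_mono (Set.finite_range _).bddBelow fun B => ?_
  exact ciSup_mono (Set.finite_range _).bddAbove fun A => h _

theorem muSeq_const_mul {c : ℝ} (hc : 0 ≤ c) (φ : Matrix (Fin N) (Fin N) ℝ → ℝ) (n : ℕ) :
    muSeq (fun X => c * φ X) 𝒜 ℬ n = c * muSeq φ 𝒜 ℬ n := by
  unfold muSeq
  rw [Real.mul_iSup_of_nonneg hc]
  congr 1
  funext A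
  rw [Real.mul_iInf_of_nonneg hc]

theorem etaSeq_const_mul {c : ℝ} (hc : 0 ≤ c) (φ : Matrix (Fin N) (Fin N) ℝ → ℝ) (n : ℕ) :
    etaSeq (fun X => c * φ X) 𝒜 ℬ n = c * etaSeq φ 𝒜 ℬ n := by
  unfold etaSeq
  rw [Real.mul_iInf_of_nonneg hc]
  congr 1
  funext A
  rw [Real.mul_iSup_of_nonneg hc]

/-! submultiplicativity -/

theorem muSeq_add (hA : 𝒜.Nonempty) (hB : ℬ.Nonempty) (m n : ℕ) :
    muSeq (fun X => ‖X‖) 𝒜 ℬ (m + n) ≤ muSeq (fun X => ‖X‖) 𝒜 ℬ m * muSeq (fun X => ‖X‖) 𝒜 ℬ n := by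
  haveI := hA.to_subtype
  haveI := hB.to_subtype
  refine ciSup_le fun A => ?_
  obtain ⟨B1, hB1⟩ := exists_eq_ciInf_of_finite (f := fun B : Fin m → ℬ =>
    ‖altProd m (fun i => (A (Fin.castAdd n i) : Matrix (Fin N) (Fin N) ℝ)) (fun i => B i)‖)
  obtain ⟨B2, hB2⟩ := exists_eq_ciInf_of_finite (f := fun B : Fin n → ℬ =>
    ‖altProd n (fun i => (A (Fin.natAdd m i) : Matrix (Fin N) (Fin N) ℝ)) (fun i => B i)‖)
  refine (ciInf_le (Set.finite_range _).bddBelow (Fin.append B1 B2)).trans ?_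
  simp only [altProd_add, Fin.append_left, Fin.append_right]
  rw [mul_comm (muSeq _ _ _ _)]
  refine (norm_mul_le _ _).trans ?_
  refine mul_le_mul ?_ ?_ (norm_nonneg _) ?_
  · rw [hB2]
    exact le_ciSup (f := fun A : Fin n → 𝒜 => ⨅ B : Fin n → ℬ,
      ‖altProd n (fun i => (A i : Matrix (Fin N) (Fin N) ℝ)) (fun i => (B i : Matrix (Fin N) (Fin N) ℝ))‖)
      (Set.finite_range _).bddAbove (fun i => A (Fin.natAdd m i))
  · rw [hB1]
    exact le_ciSup (f := fun A : Fin m → 𝒜 => ⨅ B : Fin m → ℬ,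
      ‖altProd m (fun i => (A i : Matrix (Fin N) (Fin N) ℝ)) (fun i => (B i : Matrix (Fin N) (Fin N) ℝ))‖)
      (Set.finite_range _).bddAbove (fun i => A (Fin.castAdd n i))
  · exact Real.iSup_nonneg fun A => Real.iInf_nonneg fun B => norm_nonneg _

theorem etaSeq_add (hA : 𝒜.Nonempty) (hB : ℬ.Nonempty) (m n : ℕ) :
    etaSeq (fun X => ‖X‖) 𝒜 ℬ (m + n) ≤
      etaSeq (fun X => ‖X‖) 𝒜 ℬ m * etaSeq (fun X => ‖X‖) 𝒜 ℬ n := by
  haveI := hA.to_subtype
  haveI := hB.to_subtype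
  obtain ⟨B1, hB1⟩ := exists_eq_ciInf_of_finite (f := fun B : Fin m → ℬ => ⨆ A : Fin m → 𝒜,
    ‖altProd m (fun i => (A i : Matrix (Fin N) (Fin N) ℝ)) (fun i => (B i : Matrix (Fin N) (Fin N) ℝ))‖)
  obtain ⟨B2, hB2⟩ := exists_eq_ciInf_of_finite (f := fun B : Fin n → ℬ => ⨆ A : Fin n → 𝒜,
    ‖altProd n (fun i => (A i : Matrix (Fin N) (Fin N) ℝ)) (fun i => (B i : Matrix (Fin N) (Fin N) ℝ))‖)
  refine (ciInf_le (Set.finite_range _).bddBelow (Fin.append B1 B2)).trans ?_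
  refine ciSup_le fun A => ?_
  simp only [altProd_add, Fin.append_left, Fin.append_right]
  rw [mul_comm (etaSeq _ _ _ _)]
  refine (norm_mul_le _ _).trans ?_
  refine mul_le_mul ?_ ?_ (norm_nonneg _) ?_
  · unfold etaSeq
    rw [← hB2]
    exact le_ciSup (f := fun A : Fin n → 𝒜 =>
      ‖altProd n (fun i => (A i : Matrix (Fin N) (Fin N) ℝ)) (fun i => (B2 i : Matrix (Fin N) (Fin N) ℝ))‖)
      (Set.finite_range _).bddAbove (fun i => A (Fin.natAdd m i))
  · unfold etaSeq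
    rw [← hB1]
    exact le_ciSup (f := fun A : Fin m → 𝒜 =>
      ‖altProd m (fun i => (A i : Matrix (Fin N) (Fin N) ℝ)) (fun i => (B1 i : Matrix (Fin N) (Fin N) ℝ))‖)
      (Set.finite_range _).bddAbove (fun i => A (Fin.castAdd n i))
  · exact Real.iInf_nonneg fun A => Real.iSup_nonneg fun B => norm_nonneg _

/-- Fekete for a submultiplicative sequence bounded below by `1` -/
theorem fekete (a : ℕ → ℝ) (h1 : ∀ n, 1 ≤ a n) (hs : ∀ m n, a (m + n) ≤ a m * a n) :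
    ∃ L : ℝ, 1 ≤ L ∧ Tendsto (fun n : ℕ => a n ^ (1 / (n : ℝ))) atTop (𝓝 L) := by
  have hsub : Subadditive (fun n => Real.log (a n)) := by
    intro m n
    have hm := h1 m
    have hn := h1 n
    rw [← Real.log_mul (by linarith) (by linarith)]
    exact Real.log_le_log (by linarith [h1 (m + n)]) (hs m n)
  have hnn : ∀ n, 0 ≤ Real.log (a n) := fun n => Real.log_nonneg (h1 n)
  have hbdd : BddBelow (Set.range fun n : ℕ => Real.log (a n) / n) := by
    refine ⟨0, ?_⟩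
    rintro _ ⟨n, rfl⟩
    exact div_nonneg (hnn n) (Nat.cast_nonneg n)
  have hlim := hsub.tendsto_lim hbdd
  refine ⟨Real.exp hsub.lim, ?_, ?_⟩
  · apply Real.one_le_exp
    exact ge_of_tendsto' hlim fun n => div_nonneg (hnn n) (Nat.cast_nonneg n)
  · have := (Real.continuous_exp.tendsto _).comp hlim
    refine this.congr fun n => ?_
    simp only [Function.comp]
    rw [Real.rpow_def_of_pos (by linarith [h1 n])]
    congr 1
    ring

theorem const_root (c : ℝ) (hc : 0 < c) :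
    Tendsto (fun n : ℕ => c ^ (1 / (n : ℝ))) atTop (𝓝 1) := by
  have h1 : Tendsto (fun n : ℕ => 1 / (n : ℝ)) atTop (𝓝 0) := tendsto_one_div_atTop_nhds_zero_nat
  have h2 : Tendsto (fun n : ℕ => Real.exp (Real.log c * (1 / (n : ℝ)))) atTop (𝓝 1) := by
    have := (Real.continuous_exp.tendsto _).comp (h1.const_mul (Real.log c))
    simpa [Function.comp_def] using this
  exact h2.congr fun n => (Real.rpow_def_of_pos hc _).symm

/-- comparison of the sequences of two equivalent norms -/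
theorem root_squeeze (a b : ℕ → ℝ) (c C : ℝ) (hc : 0 < c) (hC : 0 < C) (ha : ∀ n, 0 ≤ a n)
    (h1 : ∀ n, c * a n ≤ b n) (h2 : ∀ n, b n ≤ C * a n) (L : ℝ)
    (hL : Tendsto (fun n : ℕ => a n ^ (1 / (n : ℝ))) atTop (𝓝 L)) :
    Tendsto (fun n : ℕ => b n ^ (1 / (n : ℝ))) atTop (𝓝 L) := by
  have hl : Tendsto (fun n : ℕ => (c * a n) ^ (1 / (n : ℝ))) atTop (𝓝 L) := by
    have := (const_root c hc).mul hL
    rw [one_mul] at this
    exact this.congr fun n => (Real.mul_rpow hc.le (ha n)).symm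
  have hu : Tendsto (fun n : ℕ => (C * a n) ^ (1 / (n : ℝ))) atTop (𝓝 L) := by
    have := (const_root C hC).mul hL
    rw [one_mul] at this
    exact this.congr fun n => (Real.mul_rpow hC.le (ha n)).symm
  refine tendsto_of_tendsto_of_tendsto_of_le_of_le hl hu (fun n => ?_) (fun n => ?_)
  · exact Real.rpow_le_rpow (mul_nonneg hc.le (ha n)) (h1 n) (by positivity)
  · exact Real.rpow_le_rpow ((mul_nonneg hc.le (ha n)).trans (h1 n)) (h2 n) (by positivity)

theorem norm_case [NeZero N] (hA : 𝒜.Nonempty) (hB : ℬ.Nonempty)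
    (h1 : ∀ n, 1 ≤ muSeq (fun X => ‖X‖) 𝒜 ℬ n) (h2 : ∀ n, 1 ≤ etaSeq (fun X => ‖X‖) 𝒜 ℬ n) :
    ∃ μ η : ℝ, 1 ≤ μ ∧ 1 ≤ η ∧ ∀ ν : Matrix (Fin N) (Fin N) ℝ → ℝ, IsNorm ν →
      Tendsto (fun n : ℕ => muSeq ν 𝒜 ℬ n ^ (1 / (n : ℝ))) atTop (𝓝 μ) ∧
      Tendsto (fun n : ℕ => etaSeq ν 𝒜 ℬ n ^ (1 / (n : ℝ))) atTop (𝓝 η) := by
  obtain ⟨μ, hμ, hμl⟩ := fekete _ h1 (fun m n => muSeq_add hA hB m n)
  obtain ⟨η, hη, hηl⟩ := fekete _ h2 (fun m n => etaSeq_add hA hB m n)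
  refine ⟨μ, η, hμ, hη, fun ν hν => ?_⟩
  obtain ⟨C, hC, hup⟩ := hν.upper
  obtain ⟨c, hc, hlo⟩ := hν.lower
  constructor
  · refine root_squeeze _ _ c C hc hC (fun n => zero_le_one.trans (h1 n)) ?_ ?_ μ hμl
    · intro n
      rw [← muSeq_const_mul hc.le]
      exact muSeq_mono hA hB hlo n
    · intro n
      rw [← muSeq_const_mul hC.le]
      exact muSeq_mono hA hB hup n
  · refine root_squeeze _ _ c C hc hC (fun n => zero_le_one.trans (h2 n)) ?_ ?_ η hηl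
    · intro n
      rw [← etaSeq_const_mul hc.le]
      exact etaSeq_mono hA hB hlo n
    · intro n
      rw [← etaSeq_const_mul hC.le]
      exact etaSeq_mono hA hB hup n

/-! our pair -/

noncomputable def cA : Finset (Matrix (Fin 5) (Fin 5) ℝ) :=
  Finset.univ.image fun a : Fin 16 => LM ((a : ℕ) + 1)

noncomputable def cB : Finset (Matrix (Fin 5) (Fin 5) ℝ) := {1, CM}

theorem cA_ne : cA.Nonempty := by
  unfold cA
  exact Finset.univ_nonempty.image _

theorem cB_ne : cB.Nonempty := ⟨1, by simp [cB]⟩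

theorem mem_cA (a : Fin 16) : LM ((a : ℕ) + 1) ∈ cA :=
  Finset.mem_image_of_mem _ (Finset.mem_univ a)

theorem norm_v0 : ‖v0‖ = 1 := by
  apply le_antisymm
  · rw [pi_norm_le_iff_of_nonneg zero_le_one]
    intro i
    fin_cases i <;> simp [v0]
  · have := norm_le_pi_norm v0 0
    simpa [v0] using this

theorem exists_word (n : ℕ) : ∃ A : Fin n → cA, ∀ B : Fin n → cB,
    1 ≤ ‖altProd n (fun i => (A i : Matrix (Fin 5) (Fin 5) ℝ)) (fun i => B i)‖ := by
  obtain ⟨u, hu⟩ := Pool.Agent.H205R2.NR.exists_sqfree n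
  refine ⟨fun i => ⟨LM ((u i : ℕ) + 1), mem_cA _⟩, fun B => ?_⟩
  have h := inv_norm u n _ (inv_altProd u n hu n le_rfl (fun i => LM ((u i : ℕ) + 1))
    (fun i => B i) (fun i => rfl) (fun i => by
      have h3 : (B i : Matrix (Fin 5) (Fin 5) ℝ) ∈ ({1, CM} : Finset _) := (B i).2
      rw [Finset.mem_insert, Finset.mem_singleton] at h3
      exact h3))
  have h2 := Matrix.linfty_opNorm_mulVec
    (altProd n (fun i : Fin n => LM ((u i : ℕ) + 1)) (fun i => (B i : Matrix (Fin 5) (Fin 5) ℝ))) v0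
  rw [norm_v0, mul_one] at h2
  exact h.trans h2

theorem mu_ge (n : ℕ) : 1 ≤ muSeq (fun X => ‖X‖) cA cB n := by
  haveI := cA_ne.to_subtype
  haveI := cB_ne.to_subtype
  obtain ⟨A, hA⟩ := exists_word n
  refine le_trans ?_ (le_ciSup (Set.finite_range _).bddAbove A)
  exact le_ciInf hA

theorem eta_ge (n : ℕ) : 1 ≤ etaSeq (fun X => ‖X‖) cA cB n := by
  haveI := cA_ne.to_subtype
  haveI := cB_ne.to_subtype
  obtain ⟨A, hA⟩ := exists_word n
  refine le_ciInf fun B => ?_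
  exact le_trans (hA B) (le_ciSup (f := fun A : Fin n → cA =>
    ‖altProd n (fun i => (A i : Matrix (Fin 5) (Fin 5) ℝ)) (fun i => (B i : Matrix (Fin 5) (Fin 5) ℝ))‖)
    (Set.finite_range _).bddAbove A)

/-- spectral radius of a real matrix -/
noncomputable def specRad {N : ℕ} (X : Matrix (Fin N) (Fin N) ℝ) : ℝ :=
  (⨆ k ∈ spectrum ℂ (X.map (algebraMap ℝ ℂ)), (‖k‖₊ : ENNReal)).toReal

theorem specRad_nonneg {N : ℕ} (X : Matrix (Fin N) (Fin N) ℝ) : 0 ≤ specRad X :=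
  ENNReal.toReal_nonneg

theorem specRad_nilp {N : ℕ} [NeZero N] (X : Matrix (Fin N) (Fin N) ℝ) (n : ℕ)
    (h : X ^ n = 0) : specRad X = 0 := by
  unfold specRad
  have h1 : (X.map (algebraMap ℝ ℂ)) ^ n = 0 := by
    have h4 := congrArg (fun Y : Matrix (Fin N) (Fin N) ℝ => (algebraMap ℝ ℂ).mapMatrix Y) h
    simp only [map_pow, map_zero] at h4
    exact h4
  have h2 : ∀ k ∈ spectrum ℂ (X.map (algebraMap ℝ ℂ)), k = 0 := by
    intro k hk
    have := spectrum.pow_mem_pow _ n hk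
    rw [h1, spectrum.zero_eq] at this
    exact eq_zero_of_pow_eq_zero (by simpa using this)
  have h3 : (⨆ k ∈ spectrum ℂ (X.map (algebraMap ℝ ℂ)), (‖k‖₊ : ENNReal)) = 0 := by
    simp only [ENNReal.iSup_eq_zero]
    intro k hk
    rw [h2 k hk]
    simp
  rw [h3]
  rfl

noncomputable def Bmark (n : ℕ) : Fin n → cB := fun i =>
  if (i : ℕ) = 0 then ⟨CM, by simp [cB]⟩ else ⟨1, by simp [cB]⟩

theorem specRad_mark (n : ℕ) (hn : 0 < n) (A : Fin n → cA) :
    specRad (altProd n (fun i => (A i : Matrix (Fin 5) (Fin 5) ℝ)) (fun i => Bmark n i)) = 0 := by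
  obtain ⟨m, rfl⟩ : ∃ m, n = m + 1 := ⟨n - 1, by omega⟩
  have hex : ∀ i : Fin (m + 1), ∃ a : ℕ, (A i : Matrix (Fin 5) (Fin 5) ℝ) = LM a := by
    intro i
    have := (A i).2
    simp only [cA, Finset.mem_image] at this
    obtain ⟨a, -, ha⟩ := this
    exact ⟨_, ha.symm⟩
  choose a ha using hex
  obtain ⟨K, W, h⟩ := altProd_mark (fun i => if h : i < m + 1 then a ⟨i, h⟩ else 0) m
    (fun i => (A i : Matrix (Fin 5) (Fin 5) ℝ)) (fun i => (Bmark (m + 1) i : Matrix (Fin 5) (Fin 5) ℝ))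
    (fun i => by
      rw [ha, dif_pos i.isLt]) (fun i => by
      unfold Bmark
      split_ifs <;> rfl)
  rw [h]
  exact specRad_nilp _ 4 (LW_CM_pow K W)

theorem mu_spec (n : ℕ) (hn : 0 < n) : muSeq specRad cA cB n = 0 := by
  haveI := cA_ne.to_subtype
  haveI := cB_ne.to_subtype
  unfold muSeq
  have : ∀ A : Fin n → cA, ⨅ B : Fin n → cB,
      specRad (altProd n (fun i => (A i : Matrix (Fin 5) (Fin 5) ℝ)) (fun i => B i)) = 0 := by
    intro A
    apply le_antisymm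
    · rw [← specRad_mark n hn A]
      exact ciInf_le (f := fun B : Fin n → cB =>
        specRad (altProd n (fun i => (A i : Matrix (Fin 5) (Fin 5) ℝ)) (fun i => (B i : Matrix (Fin 5) (Fin 5) ℝ))))
        (Set.finite_range _).bddBelow (Bmark n)
    · exact le_ciInf fun B => specRad_nonneg _
  simp only [this]
  exact ciSup_const

theorem eta_spec (n : ℕ) (hn : 0 < n) : etaSeq specRad cA cB n = 0 := by
  haveI := cA_ne.to_subtype
  haveI := cB_ne.to_subtype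
  unfold etaSeq
  apply le_antisymm
  · refine (ciInf_le (Set.finite_range _).bddBelow (Bmark n)).trans ?_
    exact ciSup_le fun A => (specRad_mark n hn A).le
  · exact le_ciInf fun B => Real.iSup_nonneg fun A => specRad_nonneg _

end Pool.Agent.Q178.MM
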